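import Mathlib

set_option autoImplicit false

namespace Pool.Agent.Results.MP_b5c594_nt.BestOffSails

/-! ### Definitions -/

/-- the determinant of two plane vectors -/
def det (p q : ℝ × ℝ) : ℝ := p.1 * q.2 - p.2 * q.1

/-- An arrangement is given by direction vectors `p`, `q` of its two lines (`det p q ≠ 0`).  With
`a₁ = -p.2`, `b₁ = p.1`, `a₂ = -q.2`, `b₂ = q.1` its Markov-Davenport form is
`(a₁x+b₁y)(a₂x+b₂y)/(a₁b₂-a₂b₁) = coefA x² + coefB xy + coefC y²`. -/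
noncomputable def coefA (p q : ℝ × ℝ) : ℝ := p.2 * q.2 / det p q
/-- the coefficient of `xy` -/
noncomputable def coefB (p q : ℝ × ℝ) : ℝ := -(p.1 * q.2 + p.2 * q.1) / det p q
/-- the coefficient of `y²` -/
noncomputable def coefC (p q : ℝ × ℝ) : ℝ := p.1 * q.1 / det p q

/-- The discrepancy of the arrangements `(p, q)` and `(p', q')`. -/
noncomputable def rho (p q p' q' : ℝ × ℝ) : ℝ :=
  min (max |coefA p q + coefA p' q'| (max |coefB p q + coefB p' q'| |coefC p q + coefC p' q'|))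
    (max |coefA p q - coefA p' q'| (max |coefB p q - coefB p' q'| |coefC p q - coefC p' q'|))

/-- integer vectors as real vectors -/
def toR (v : ℤ × ℤ) : ℝ × ℝ := ((v.1 : ℝ), (v.2 : ℝ))

/-- the maximum norm of an integer vector -/
def nrm (v : ℤ × ℤ) : ℤ := max |v.1| |v.2|

/-- `(v, w)` are primitive integer vectors on the two (distinct) lines of an integer arrangement
of size at most `N`. -/
def IsIntArr (N : ℕ) (v w : ℤ × ℤ) : Prop :=
  IsCoprime v.1 v.2 ∧ IsCoprime w.1 w.2 ∧ det (toR v) (toR w) ≠ 0 ∧ max (nrm v) (nrm w) ≤ N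

/-- `(v, w)` are the primitive vectors of a best approximation `R_N` of the arrangement `(p, q)`. -/
def IsBest (p q : ℝ × ℝ) (N : ℕ) (v w : ℤ × ℤ) : Prop :=
  IsIntArr N v w ∧ ∀ v' w', IsIntArr N v' w' → rho p q (toR v) (toR w) ≤ rho p q (toR v') (toR w')

/-- The arrangement `(p, q)` is algebraic. -/
def IsAlgebraicArr (p q : ℝ × ℝ) : Prop :=
  ∃ A : Matrix (Fin 2) (Fin 2) ℤ, IsUnit A.det ∧ Irreducible (A.map (Int.cast : ℤ → ℚ)).charpoly ∧
    (∃ l : ℝ, (A.map (Int.cast : ℤ → ℝ)).mulVec ![p.1, p.2] = l • ![p.1, p.2]) ∧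
    (∃ l : ℝ, (A.map (Int.cast : ℤ → ℝ)).mulVec ![q.1, q.2] = l • ![q.1, q.2])

/-- The closed angle spanned by `c • p` and `d • q` (with `c, d = ±1`). -/
def angle (p q : ℝ × ℝ) (c d : ℝ) : Set (ℝ × ℝ) :=
  {x | ∃ s t : ℝ, 0 ≤ s ∧ 0 ≤ t ∧ x = (s * c) • p + (t * d) • q}

/-- The 1-sail of a closed angle `C`. -/
def sail (C : Set (ℝ × ℝ)) : Set (ℝ × ℝ) :=
  frontier (convexHull ℝ {x | x ∈ C ∧ x ≠ 0 ∧ ∃ v : ℤ × ℤ, x = toR v})

/-- The geometric continued fraction: the union of the 1-sails of the four angles. -/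
def gcf (p q : ℝ × ℝ) : Set (ℝ × ℝ) :=
  {x | ∃ c d : ℝ, (c = 1 ∨ c = -1) ∧ (d = 1 ∨ d = -1) ∧ x ∈ sail (angle p q c d)}

/-! ### The example -/

/-- `√5` -/
noncomputable def r : ℝ := Real.sqrt 5
/-- the golden ratio -/
noncomputable def φ : ℝ := (1 + r) / 2
/-- its conjugate -/
noncomputable def ψ : ℝ := (1 - r) / 2
/-- `ω = φ + 100` -/
noncomputable def ω : ℝ := φ + 100
/-- `ω' = ψ + 100` -/
noncomputable def ω' : ℝ := ψ + 100
/-- direction of the first line -/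
noncomputable def U1 : ℝ × ℝ := (-ω', 1)
/-- direction of the second line -/
noncomputable def U2 : ℝ × ℝ := (-ω, 1)

lemma r_sq : r ^ 2 = 5 := Real.sq_sqrt (by norm_num)
lemma r_pos : 0 < r := Real.sqrt_pos.mpr (by norm_num)
lemma r_lo : 2.236 < r := by have := r_sq; have := r_pos; nlinarith
lemma r_hi : r < 2.2361 := by have := r_sq; have := r_pos; nlinarith
lemma φ_sq : φ ^ 2 = φ + 1 := by unfold φ; linear_combination r_sq / 4
lemma ψ_sq : ψ ^ 2 = ψ + 1 := by unfold ψ; linear_combination r_sq / 4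
lemma φψ : φ * ψ = -1 := by unfold φ ψ; linear_combination - r_sq / 4
lemma φ_sub : φ - ψ = r := by unfold φ ψ; ring
lemma φ_add : φ + ψ = 1 := by unfold φ ψ; ring
lemma φ_lo : 1.618 < φ := by unfold φ; have := r_lo; linarith
lemma φ_hi : φ < 1.61805 := by unfold φ; have := r_hi; linarith
lemma φ_pos : 0 < φ := by have := φ_lo; linarith
lemma ψ_neg : ψ < 0 := by unfold ψ; have := r_lo; linarith
lemma ψ_ne : ψ ≠ 0 := ψ_neg.ne
lemma φ_ne : φ ≠ 0 := φ_pos.ne'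
lemma ω_sub : ω - ω' = r := by unfold ω ω'; have := φ_sub; linarith
lemma ω_add : ω + ω' = 201 := by unfold ω ω'; have := φ_add; linarith
lemma ω_mul : ω * ω' = 10099 := by
  unfold ω ω'; linear_combination φψ + 100 * φ_add
lemma ω_lo : 101.618 < ω := by unfold ω; have := φ_lo; linarith
lemma ω_hi : ω < 101.61805 := by unfold ω; have := φ_hi; linarith
lemma ω'_lo : 99.38195 < ω' := by have := ω_add; have := ω_hi; linarith
lemma ω'_hi : ω' < 99.382 := by have := ω_add; have := ω_lo; linarith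

/-- `μ(x, y) = x + ω y` -/
noncomputable def μ (p : ℝ × ℝ) : ℝ := p.1 + ω * p.2
/-- `μ'(x, y) = x + ω' y` -/
noncomputable def μ' (p : ℝ × ℝ) : ℝ := p.1 + ω' * p.2

lemma fst_eq (p : ℝ × ℝ) : p.1 = (ω * μ' p - ω' * μ p) / r := by
  rw [eq_div_iff r_pos.ne', ← ω_sub]; unfold μ μ'; ring
lemma snd_eq (p : ℝ × ℝ) : p.2 = (μ p - μ' p) / r := by
  rw [eq_div_iff r_pos.ne', ← ω_sub]; unfold μ μ'; ring
lemma det_eq (p q : ℝ × ℝ) : det p q = (μ' p * μ q - μ p * μ' q) / r := by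
  rw [eq_div_iff r_pos.ne', ← ω_sub]; unfold μ μ' det; ring

lemma ext_μ {p q : ℝ × ℝ} (h : μ p = μ q) (h' : μ' p = μ' q) : p = q := by
  apply Prod.ext
  · rw [fst_eq, fst_eq q, h, h']
  · rw [snd_eq, snd_eq q, h, h']

/-- `v` is the unit `φ^k` -/
def IsU (v : ℤ × ℤ) (k : ℤ) : Prop := μ (toR v) = φ ^ k ∧ μ' (toR v) = ψ ^ k

lemma exists_U (k : ℤ) : ∃ v, IsU v k := by
  induction k using Int.induction_on with
  | zero => exact ⟨(1, 0), by simp [IsU, μ, μ', toR]⟩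
  | succ k ih =>
    obtain ⟨v, h1, h2⟩ := ih
    refine ⟨(-100 * v.1 - 10099 * v.2, v.1 + 101 * v.2), ?_, ?_⟩
    · rw [zpow_add_one₀ φ_ne, ← h1]
      simp only [μ, toR]; push_cast
      unfold ω
      linear_combination - (v.2 : ℝ) * φ_sq
    · rw [zpow_add_one₀ ψ_ne, ← h2]
      simp only [μ', toR]; push_cast
      unfold ω'
      linear_combination - (v.2 : ℝ) * ψ_sq
  | pred k ih =>
    obtain ⟨v, h1, h2⟩ := ih
    have e1 : φ⁻¹ = φ - 1 := by
      apply inv_eq_of_mul_eq_one_right; linear_combination φ_sq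
    have e2 : ψ⁻¹ = ψ - 1 := by
      apply inv_eq_of_mul_eq_one_right; linear_combination ψ_sq
    refine ⟨(-101 * v.1 - 10099 * v.2, v.1 + 100 * v.2), ?_, ?_⟩
    · rw [zpow_sub_one₀ φ_ne, ← h1, e1]
      simp only [μ, toR]; push_cast
      unfold ω
      linear_combination - (v.2 : ℝ) * φ_sq
    · rw [zpow_sub_one₀ ψ_ne, ← h2, e2]
      simp only [μ', toR]; push_cast
      unfold ω'
      linear_combination - (v.2 : ℝ) * ψ_sq

lemma r_irr : Irrational r := by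
  have := Nat.Prime.irrational_sqrt (p := 5) (by norm_num)
  simpa [r] using this

lemma μ_ne (v : ℤ × ℤ) (hv : v ≠ 0) : μ (toR v) ≠ 0 ∧ μ' (toR v) ≠ 0 := by
  have key : ∀ e : ℝ, (e = r ∨ e = -r) → (v.1 : ℝ) + (201 + e) / 2 * v.2 ≠ 0 := by
    intro e he h0
    have hirr : Irrational e := by
      rcases he with rfl | rfl
      · exact r_irr
      · exact r_irr.neg
    by_cases hy : v.2 = 0
    · rw [hy] at h0
      have : v.1 = 0 := by
        have : (v.1 : ℝ) = 0 := by simpa using h0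
        exact_mod_cast this
      exact hv (Prod.ext this hy)
    · have hy' : (v.2 : ℝ) ≠ 0 := by exact_mod_cast hy
      apply hirr
      refine ⟨-(2 * v.1 + 201 * v.2) / v.2, ?_⟩
      push_cast
      rw [div_eq_iff hy']
      linear_combination - 2 * h0
  constructor
  · have := key r (Or.inl rfl)
    intro h; apply this
    rw [← h]; simp only [μ, toR, ω, φ]; ring
  · have := key (-r) (Or.inr rfl)
    intro h; apply this
    rw [← h]; simp only [μ', toR, ω', ψ]; ring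

/-- integer determinant -/
def dZ (v w : ℤ × ℤ) : ℤ := v.1 * w.2 - v.2 * w.1

lemma det_toR (v w : ℤ × ℤ) : det (toR v) (toR w) = dZ v w := by
  simp [det, toR, dZ]

lemma ψ_zpow (k : ℤ) : ψ ^ k = (-1) ^ k * (φ ^ k)⁻¹ := by
  have h : ψ = (-1) * φ⁻¹ := by
    rw [eq_comm, mul_inv_eq_iff_eq_mul₀ φ_ne, mul_comm]; exact φψ.symm
  rw [h, mul_zpow, inv_zpow]

lemma det_units {w1 w2 : ℤ × ℤ} {k : ℤ} (h1 : IsU w1 k) (h2 : IsU w2 (k + 2)) :
    (dZ w1 w2 : ℝ) = (-1) ^ k := by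
  rw [← det_toR, det_eq, h1.1, h1.2, h2.1, h2.2, zpow_add₀ φ_ne, zpow_add₀ ψ_ne, ψ_zpow k,
    div_eq_iff r_pos.ne']
  have h : φ ^ k ≠ 0 := zpow_ne_zero _ φ_ne
  have e : (φ ^ (2 : ℤ)) - ψ ^ (2 : ℤ) = r := by
    rw [zpow_ofNat, zpow_ofNat, φ_sq, ψ_sq]; linear_combination φ_sub
  rw [← e]; field_simp

/-- every nonzero integer vector is, up to sign, a nonnegative combination of two consecutive
units of the same angle -/
lemma classify (v : ℤ × ℤ) (hv : v ≠ 0) : ∃ (k : ℤ) (w1 w2 : ℤ × ℤ) (m n : ℤ) (σ : ℤ),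
    (σ = 1 ∨ σ = -1) ∧ IsU w1 k ∧ IsU w2 (k + 2) ∧ 0 ≤ m ∧ 0 ≤ n ∧
    v = (σ * (m * w1.1 + n * w2.1), σ * (m * w1.2 + n * w2.2)) := by
  obtain ⟨hA, hB⟩ := μ_ne v hv
  obtain ⟨σ, hσ, hσA⟩ : ∃ σ : ℤ, (σ = 1 ∨ σ = -1) ∧ 0 < σ * μ (toR v) := by
    rcases hA.lt_or_gt with h | h
    · exact ⟨-1, Or.inr rfl, by push_cast; linarith⟩
    · exact ⟨1, Or.inl rfl, by push_cast; linarith⟩
  have hσσ : σ * σ = 1 := by rcases hσ with rfl | rfl <;> norm_num
  set A : ℝ := σ * μ (toR v) with hAdef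
  set B : ℝ := σ * μ' (toR v) with hBdef
  have hσne : (σ : ℝ) ≠ 0 := by rcases hσ with rfl | rfl <;> norm_num
  have hB0 : B ≠ 0 := mul_ne_zero hσne hB
  obtain ⟨δ, hδ, hε⟩ : ∃ δ : ℤ, (δ = 0 ∨ δ = 1) ∧ B = (-1) ^ δ * |B| := by
    rcases hB0.lt_or_gt with h | h
    · exact ⟨1, Or.inr rfl, by rw [abs_of_neg h]; simp⟩
    · exact ⟨0, Or.inl rfl, by rw [abs_of_pos h]; simp⟩
  have hBpos : 0 < |B| := abs_pos.mpr hB0
  have hφ4 : 1 < φ ^ 4 := one_lt_pow₀ (by have := φ_lo; linarith) (by norm_num)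
  obtain ⟨k', hk1, hk2⟩ := exists_mem_Ico_zpow (x := A / |B| / φ ^ (2 * δ)) (y := φ ^ 4)
    (by have := zpow_pos φ_pos (2 * δ); positivity) hφ4
  set k := 2 * k' + δ with hk
  have hφ2δ : 0 < φ ^ (2 * δ) := zpow_pos φ_pos _
  have hlo : φ ^ k * φ ^ k * |B| ≤ A := by
    rw [le_div_iff₀ hφ2δ, le_div_iff₀ hBpos] at hk1
    have e : φ ^ k * φ ^ k = (φ ^ 4) ^ k' * φ ^ (2 * δ) := by
      rw [← zpow_add₀ φ_ne, ← zpow_natCast φ 4, ← zpow_mul, ← zpow_add₀ φ_ne]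
      congr 1; rw [hk]; push_cast; ring
    rw [e]; exact hk1
  have hhi : A < φ ^ (k + 2) * φ ^ (k + 2) * |B| := by
    rw [div_lt_iff₀ hφ2δ, div_lt_iff₀ hBpos] at hk2
    have e : φ ^ (k + 2) * φ ^ (k + 2) = (φ ^ 4) ^ (k' + 1) * φ ^ (2 * δ) := by
      rw [← zpow_add₀ φ_ne, ← zpow_natCast φ 4, ← zpow_mul, ← zpow_add₀ φ_ne]
      congr 1; rw [hk]; push_cast; ring
    rw [e]; exact hk2
  have hsgn : ((-1 : ℝ)) ^ k = (-1) ^ δ := by
    rw [hk, zpow_add₀ (by norm_num), zpow_mul]; simp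
  obtain ⟨w1, h1⟩ := exists_U k
  obtain ⟨w2, h2⟩ := exists_U (k + 2)
  obtain ⟨ε, hε1, hεr⟩ : ∃ ε : ℤ, (ε = 1 ∨ ε = -1) ∧ (ε : ℝ) = (-1) ^ k := by
    rw [hsgn]
    rcases hδ with rfl | rfl
    · exact ⟨1, Or.inl rfl, by simp⟩
    · exact ⟨-1, Or.inr rfl, by simp⟩
  have hdet : dZ w1 w2 = ε := by
    have := det_units h1 h2
    rw [← hεr] at this; exact_mod_cast this
  have hεε : ε * ε = 1 := by rcases hε1 with rfl | rfl <;> norm_num
  have hεεr : (ε : ℝ) * ε = 1 := by exact_mod_cast hεε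
  rw [← hsgn, ← hεr] at hε
  have hφk : 0 < φ ^ k := zpow_pos φ_pos _
  have hφk2 : 0 < φ ^ (k + 2) := zpow_pos φ_pos _
  have hψk : ψ ^ k = ε * (φ ^ k)⁻¹ := by rw [ψ_zpow, hεr]
  have hψk2 : ψ ^ (k + 2) = ε * (φ ^ (k + 2))⁻¹ := by
    rw [ψ_zpow, hεr, zpow_add₀ (by norm_num : (-1 : ℝ) ≠ 0)]; simp
  refine ⟨k, w1, w2, σ * (ε * dZ v w2), σ * (ε * dZ w1 v), σ, hσ, h1, h2, ?_, ?_, ?_⟩
  · have e : ((σ * (ε * dZ v w2) : ℤ) : ℝ) = (|B| * φ ^ (k + 2) - A * (φ ^ (k + 2))⁻¹) / r := by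
      push_cast
      rw [← det_toR, det_eq, h2.1, h2.2, hψk2]
      have e2 : (σ : ℝ) * μ' (toR v) = ε * |B| := hε
      have e3 : (σ : ℝ) * μ (toR v) = A := rfl
      rw [← e3]
      have : (σ : ℝ) * (ε * ((μ' (toR v) * φ ^ (k + 2) - μ (toR v) * (ε * (φ ^ (k + 2))⁻¹)) / r)) =
        (ε * (σ * μ' (toR v)) * φ ^ (k + 2) - (ε * ε) * (σ * μ (toR v)) * (φ ^ (k + 2))⁻¹) / r := by ring
      rw [this, e2, hεεr, ← mul_assoc, hεεr]; ring
    have e4 : (0 : ℝ) ≤ ((σ * (ε * dZ v w2) : ℤ) : ℝ) := by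
      rw [e]
      apply div_nonneg _ r_pos.le
      have : A * (φ ^ (k + 2))⁻¹ ≤ |B| * φ ^ (k + 2) := by
        rw [mul_inv_le_iff₀ hφk2]; linarith
      linarith
    exact_mod_cast e4
  · have e : ((σ * (ε * dZ w1 v) : ℤ) : ℝ) = (A * (φ ^ k)⁻¹ - |B| * φ ^ k) / r := by
      push_cast
      rw [← det_toR, det_eq, h1.1, h1.2, hψk]
      have e2 : (σ : ℝ) * μ' (toR v) = ε * |B| := hε
      have e3 : (σ : ℝ) * μ (toR v) = A := rfl
      rw [← e3]
      have : (σ : ℝ) * (ε * ((ε * (φ ^ k)⁻¹ * μ (toR v) - φ ^ k * μ' (toR v)) / r)) =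
        ((ε * ε) * (σ * μ (toR v)) * (φ ^ k)⁻¹ - ε * (σ * μ' (toR v)) * φ ^ k) / r := by ring
      rw [this, e2, hεεr, ← mul_assoc (ε : ℝ) (ε : ℝ) |B|, hεεr]; ring
    have e4 : (0 : ℝ) ≤ ((σ * (ε * dZ w1 v) : ℤ) : ℝ) := by
      rw [e]
      apply div_nonneg _ r_pos.le
      have : |B| * φ ^ k ≤ A * (φ ^ k)⁻¹ := by
        rw [le_mul_inv_iff₀ hφk]; linarith
      linarith
    exact_mod_cast e4
  · unfold dZ at hdet ⊢
    apply Prod.ext
    · show v.1 = _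
      linear_combination (-v.1 * hσσ * (ε * ε)) - v.1 * hεε - (σ * σ * ε * v.1) * hdet
    · show v.2 = _
      linear_combination (-v.2 * hσσ * (ε * ε)) - v.2 * hεε - (σ * σ * ε * v.2) * hdet

lemma μ_U1 : μ U1 = r := by simp only [μ, U1]; linarith [ω_sub]
lemma μ_U2 : μ U2 = 0 := by simp only [μ, U2]; ring
lemma μ'_U1 : μ' U1 = 0 := by simp only [μ', U1]; ring
lemma μ'_U2 : μ' U2 = -r := by simp only [μ', U2]; linarith [ω_sub]

lemma μ_add (a b : ℝ) (p q : ℝ × ℝ) : μ (a • p + b • q) = a * μ p + b * μ q := by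
  simp only [μ, Prod.fst_add, Prod.snd_add, Prod.smul_fst, Prod.smul_snd, smul_eq_mul]; ring
lemma μ'_add (a b : ℝ) (p q : ℝ × ℝ) : μ' (a • p + b • q) = a * μ' p + b * μ' q := by
  simp only [μ', Prod.fst_add, Prod.snd_add, Prod.smul_fst, Prod.smul_snd, smul_eq_mul]; ring
lemma μ_smul (a : ℝ) (p : ℝ × ℝ) : μ (a • p) = a * μ p := by
  simp only [μ, Prod.smul_fst, Prod.smul_snd, smul_eq_mul]; ring
lemma μ'_smul (a : ℝ) (p : ℝ × ℝ) : μ' (a • p) = a * μ' p := by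
  simp only [μ', Prod.smul_fst, Prod.smul_snd, smul_eq_mul]; ring

lemma μ_cont : Continuous μ := by unfold μ; fun_prop
lemma μ'_cont : Continuous μ' := by unfold μ'; fun_prop

lemma angle_iff {c d : ℝ} (hc : c = 1 ∨ c = -1) (hd : d = 1 ∨ d = -1) (x : ℝ × ℝ) :
    x ∈ angle U1 U2 c d ↔ 0 ≤ c * μ x ∧ d * μ' x ≤ 0 := by
  have hr := r_pos
  have hcc : c * c = 1 := by rcases hc with rfl | rfl <;> norm_num
  have hdd : d * d = 1 := by rcases hd with rfl | rfl <;> norm_num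
  constructor
  · rintro ⟨s, t, hs, ht, rfl⟩
    rw [μ_add, μ'_add, μ_U1, μ_U2, μ'_U1, μ'_U2]
    constructor
    · have : c * (s * c * r + t * d * 0) = s * r := by linear_combination s * r * hcc
      rw [this]; positivity
    · have : d * (s * c * 0 + t * d * -r) = -(t * r) := by linear_combination - t * r * hdd
      rw [this]
      have := mul_nonneg ht hr.le
      linarith
  · rintro ⟨h1, h2⟩
    refine ⟨c * μ x / r, -(d * μ' x) / r, by positivity, div_nonneg (by linarith) hr.le, ?_⟩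
    apply ext_μ
    · rw [μ_add, μ_U1, μ_U2]
      field_simp
      linear_combination - r * μ x * hcc
    · rw [μ'_add, μ'_U1, μ'_U2]
      field_simp
      linear_combination - r * μ' x * hdd

lemma angle_convex {c d : ℝ} (hc : c = 1 ∨ c = -1) (hd : d = 1 ∨ d = -1) :
    Convex ℝ (angle U1 U2 c d) := by
  intro x hx y hy a b ha hb hab
  rw [angle_iff hc hd] at hx hy ⊢
  rw [μ_add, μ'_add]
  constructor
  · have := mul_nonneg ha hx.1
    have := mul_nonneg hb hy.1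
    linarith
  · have := mul_nonneg ha (neg_nonneg.mpr hx.2)
    have := mul_nonneg hb (neg_nonneg.mpr hy.2)
    linarith

lemma angle_closed {c d : ℝ} (hc : c = 1 ∨ c = -1) (hd : d = 1 ∨ d = -1) :
    IsClosed (angle U1 U2 c d) := by
  have : angle U1 U2 c d = {x | 0 ≤ c * μ x} ∩ {x | d * μ' x ≤ 0} := by
    ext x; exact angle_iff hc hd x
  rw [this]
  exact (isClosed_le continuous_const (continuous_const.mul μ_cont)).inter
    (isClosed_le (continuous_const.mul μ'_cont) continuous_const)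

/-- a point of the open angular strip is in the interior of the hull -/
lemma mem_interior_hull {S : Set (ℝ × ℝ)} {W1 W2 : ℝ × ℝ} (hdet : det W1 W2 ≠ 0)
    (hS1 : ∀ M : ℕ, 1 ≤ M → (M : ℝ) • W1 ∈ S) (hS2 : ∀ M : ℕ, 1 ≤ M → (M : ℝ) • W2 ∈ S)
    {m n : ℝ} (hm : 1 ≤ m) (hn : 1 ≤ n) : m • W1 + n • W2 ∈ interior (convexHull ℝ S) := by
  set f : ℝ × ℝ → ℝ := fun p => det p W2 / det W1 W2 with hf
  set g : ℝ × ℝ → ℝ := fun p => det W1 p / det W1 W2 with hg
  have hfc : Continuous f := by rw [hf]; unfold det; fun_prop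
  have hgc : Continuous g := by rw [hg]; unfold det; fun_prop
  have hcomb : ∀ p, p = f p • W1 + g p • W2 := by
    intro p
    apply Prod.ext
    · simp only [hf, hg, Prod.fst_add, Prod.smul_fst, smul_eq_mul]
      field_simp; unfold det; ring
    · simp only [hf, hg, Prod.snd_add, Prod.smul_snd, smul_eq_mul]
      field_simp; unfold det; ring
  have hfv : f (m • W1 + n • W2) = m := by
    simp only [hf]; rw [div_eq_iff hdet]
    simp only [det, Prod.fst_add, Prod.snd_add, Prod.smul_fst, Prod.smul_snd, smul_eq_mul]; ring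
  have hgv : g (m • W1 + n • W2) = n := by
    simp only [hg]; rw [div_eq_iff hdet]
    simp only [det, Prod.fst_add, Prod.snd_add, Prod.smul_fst, Prod.smul_snd, smul_eq_mul]; ring
  rw [mem_interior]
  refine ⟨{p | 0 < f p ∧ 0 < g p ∧ 1 < f p + g p}, ?_, ?_, ?_⟩
  · rintro p ⟨h1, h2, h3⟩
    obtain ⟨M, hM⟩ := exists_nat_gt (f p + g p)
    have hM1 : (1 : ℝ) < M := by linarith
    have hM1' : 1 ≤ M := by exact_mod_cast hM1.le
    have hτ : f p + g p ≠ 0 := by linarith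
    have hZ : ∀ Z : ℝ × ℝ, (∀ M : ℕ, 1 ≤ M → (M : ℝ) • Z ∈ S) →
        (f p + g p) • Z ∈ convexHull ℝ S := by
      intro Z hZS
      have z1 : Z ∈ convexHull ℝ S := by
        have := subset_convexHull ℝ S (hZS 1 le_rfl)
        simpa using this
      have z2 : (M : ℝ) • Z ∈ convexHull ℝ S := subset_convexHull ℝ S (hZS M hM1')
      have hden : (0 : ℝ) < M - 1 := by linarith
      have := convex_convexHull ℝ S z1 z2 (a := (M - (f p + g p)) / (M - 1))
        (b := (f p + g p - 1) / (M - 1)) (div_nonneg (by linarith) hden.le)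
        (div_nonneg (by linarith) hden.le) (by field_simp; ring)
      convert this using 1
      rw [smul_smul, ← add_smul]
      congr 1
      field_simp; ring
    have := convex_convexHull ℝ S (hZ W1 hS1) (hZ W2 hS2) (a := f p / (f p + g p))
      (b := g p / (f p + g p)) (by positivity) (by positivity) (by field_simp)
    convert this using 1
    conv_lhs => rw [hcomb p]
    rw [smul_smul, smul_smul, div_mul_cancel₀ _ hτ, div_mul_cancel₀ _ hτ]
  · exact (isOpen_lt continuous_const hfc).inter ((isOpen_lt continuous_const hgc).inter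
      (isOpen_lt continuous_const (hfc.add hgc)))
  · show 0 < f _ ∧ 0 < g _ ∧ 1 < f _ + g _
    rw [hfv, hgv]; exact ⟨by linarith, by linarith, by linarith⟩

lemma toR_smul (M : ℕ) (v : ℤ × ℤ) : (M : ℝ) • toR v = toR ((M : ℤ) * v.1, (M : ℤ) * v.2) := by
  apply Prod.ext <;> simp [toR]

/-- a proper combination is not on the geometric continued fraction -/
lemma not_mem_gcf {k : ℤ} {w1 w2 : ℤ × ℤ} {m n σ : ℤ} (hσ : σ = 1 ∨ σ = -1)
    (h1 : IsU w1 k) (h2 : IsU w2 (k + 2)) (hm : 1 ≤ m) (hn : 1 ≤ n) :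
    toR (σ * (m * w1.1 + n * w2.1), σ * (m * w1.2 + n * w2.2)) ∉ gcf U1 U2 := by
  rintro ⟨c, d, hc, hd, hmem⟩
  set v : ℤ × ℤ := (σ * (m * w1.1 + n * w2.1), σ * (m * w1.2 + n * w2.2)) with hv
  set W1 : ℝ × ℝ := (σ : ℝ) • toR w1 with hW1
  set W2 : ℝ × ℝ := (σ : ℝ) • toR w2 with hW2
  have hvW : toR v = (m : ℝ) • W1 + (n : ℝ) • W2 := by
    apply Prod.ext
    · simp [toR, hv, hW1, hW2]; ring
    · simp [toR, hv, hW1, hW2]; ring
  set S := {x | x ∈ angle U1 U2 c d ∧ x ≠ 0 ∧ ∃ v : ℤ × ℤ, x = toR v} with hS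
  have hσσ : (σ : ℝ) * σ = 1 := by rcases hσ with rfl | rfl <;> norm_num
  have hcc : c * c = 1 := by rcases hc with rfl | rfl <;> norm_num
  have hdd : d * d = 1 := by rcases hd with rfl | rfl <;> norm_num
  have hmr : (1 : ℝ) ≤ m := by exact_mod_cast hm
  have hnr : (1 : ℝ) ≤ n := by exact_mod_cast hn
  -- `v` lies in the angle
  have hvC : toR v ∈ angle U1 U2 c d := by
    have hsub : convexHull ℝ S ⊆ angle U1 U2 c d :=
      convexHull_min (fun x hx => hx.1) (angle_convex hc hd)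
    exact (closure_minimal hsub (angle_closed hc hd)) hmem.1
  rw [angle_iff hc hd] at hvC
  obtain ⟨hv1, hv2⟩ := hvC
  rw [hvW, μ_add] at hv1
  rw [hvW, μ'_add] at hv2
  have hφk : 0 < φ ^ k := zpow_pos φ_pos _
  have hφk2 : 0 < φ ^ (k + 2) := zpow_pos φ_pos _
  have hψ2 : ψ ^ (k + 2) = ψ ^ k * ψ ^ 2 := by
    rw [zpow_add₀ ψ_ne]; norm_cast
  have hψ2p : 0 < ψ ^ 2 := by have := ψ_ne; positivity
  have mW1 : μ W1 = σ * φ ^ k := by rw [hW1, μ_smul, h1.1]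
  have mW2 : μ W2 = σ * φ ^ (k + 2) := by rw [hW2, μ_smul, h2.1]
  have m'W1 : μ' W1 = σ * ψ ^ k := by rw [hW1, μ'_smul, h1.2]
  have m'W2 : μ' W2 = σ * (ψ ^ k * ψ ^ 2) := by rw [hW2, μ'_smul, h2.2, hψ2]
  rw [mW1, mW2] at hv1
  rw [m'W1, m'W2] at hv2
  have hcσ : 0 ≤ c * σ := by
    have e : c * (m * (σ * φ ^ k) + n * (σ * φ ^ (k + 2))) =
      (c * σ) * (m * φ ^ k + n * φ ^ (k + 2)) := by ring
    rw [e] at hv1
    have hpos : 0 < (m : ℝ) * φ ^ k + n * φ ^ (k + 2) := by positivity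
    exact nonneg_of_mul_nonneg_left hv1 hpos
  have hdσ : (d * σ) * ψ ^ k ≤ 0 := by
    have e : d * (m * (σ * ψ ^ k) + n * (σ * (ψ ^ k * ψ ^ 2))) =
      ((d * σ) * ψ ^ k) * (m + n * ψ ^ 2) := by ring
    rw [e] at hv2
    have hpos : 0 < (m : ℝ) + n * ψ ^ 2 := by positivity
    by_contra h
    push Not at h
    have := mul_pos h hpos
    linarith
  have hin : ∀ (w : ℤ × ℤ) (a b : ℝ), 0 < a → 0 < b → μ (toR w) = a → μ' (toR w) = ψ ^ k * b →
      ∀ M : ℕ, 1 ≤ M → (M : ℝ) • ((σ : ℝ) • toR w) ∈ S := by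
    intro w a b ha hb hwa hwb M hM
    have hMr : (1 : ℝ) ≤ M := by exact_mod_cast hM
    refine ⟨?_, ?_, ?_⟩
    · rw [angle_iff hc hd, μ_smul, μ_smul, μ'_smul, μ'_smul, hwa, hwb]
      constructor
      · have : c * (M * (σ * a)) = (c * σ) * (M * a) := by ring
        rw [this]; positivity
      · have : d * (M * (σ * (ψ ^ k * b))) = -(-((d * σ) * ψ ^ k) * (M * b)) := by ring
        rw [this]
        have h3 : 0 ≤ -((d * σ) * ψ ^ k) := by linarith
        have : 0 ≤ -((d * σ) * ψ ^ k) * (M * b) := by positivity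
        linarith
    · intro h0
      have := congrArg μ h0
      rw [μ_smul, μ_smul, hwa] at this
      have hz : μ 0 = 0 := by simp [μ]
      rw [hz] at this
      have hσ0 : (σ : ℝ) ≠ 0 := by rcases hσ with rfl | rfl <;> norm_num
      have hM0 : (M : ℝ) ≠ 0 := by linarith
      exact (mul_ne_zero hM0 (mul_ne_zero hσ0 ha.ne')) this
    · refine ⟨(M * (σ * w.1), M * (σ * w.2)), ?_⟩
      apply Prod.ext <;> simp [toR]
  have hdet : det W1 W2 ≠ 0 := by
    have e : det W1 W2 = (σ * σ) * dZ w1 w2 := by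
      rw [← det_toR, hW1, hW2]; simp [det]; ring
    rw [e, hσσ, one_mul, det_units h1 h2]
    exact zpow_ne_zero _ (by norm_num)
  have hint : toR v ∈ interior (convexHull ℝ S) := by
    rw [hvW]
    exact mem_interior_hull hdet (hin w1 _ 1 hφk one_pos h1.1 (by rw [h1.2, mul_one]))
      (hin w2 _ _ hφk2 hψ2p h2.1 (by rw [h2.2, hψ2])) hmr hnr
  exact hmem.2 hint

/-- primitive vectors on the geometric continued fraction are units -/
lemma unit_of_mem {v : ℤ × ℤ} (hp : IsCoprime v.1 v.2) (hv : toR v ∈ gcf U1 U2) :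
    ∃ (k : ℤ) (w : ℤ × ℤ) (σ : ℤ), (σ = 1 ∨ σ = -1) ∧ IsU w k ∧ v = (σ * w.1, σ * w.2) := by
  have hv0 : v ≠ 0 := by
    rintro rfl
    exact not_isCoprime_zero_zero hp
  obtain ⟨k, w1, w2, m, n, σ, hσ, h1, h2, hm, hn, rfl⟩ := classify v hv0
  have hunit : ∀ (m : ℤ) (w : ℤ × ℤ), 0 ≤ m → IsCoprime (σ * (m * w.1)) (σ * (m * w.2)) → m = 1 := by
    intro m w hm hc
    obtain ⟨a, b, hab⟩ := hc
    have : m ∣ 1 := ⟨a * σ * w.1 + b * σ * w.2, by rw [← hab]; ring⟩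
    exact Int.eq_one_of_dvd_one hm this
  rcases hm.lt_or_eq with hm' | hm'
  · rcases hn.lt_or_eq with hn' | hn'
    · exact absurd hv (not_mem_gcf hσ h1 h2 hm' hn')
    · rw [← hn'] at hp
      have := hunit m w1 hm (by simpa using hp)
      refine ⟨k, w1, σ, hσ, h1, ?_⟩
      rw [← hn', this]; simp
  · rw [← hm'] at hp
    have := hunit n w2 hn (by simpa using hp)
    refine ⟨k + 2, w2, σ, hσ, h2, ?_⟩
    rw [← hm', this]; simp

/-! ### Numerical estimates -/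

/-- `θ = ψ / φ` -/
noncomputable def θ : ℝ := φ - 2
lemma θ_lo : -0.382 < θ := by unfold θ; have := φ_lo; linarith
lemma θ_hi : θ < -0.38195 := by unfold θ; have := φ_hi; linarith
lemma θ_ne : θ ≠ 0 := by have := θ_hi; intro h; rw [h] at this; norm_num at this
lemma θφ : θ * φ = ψ := by
  unfold θ; have := φ_add; linear_combination φ_sq - this
lemma θ_zpow (k : ℤ) : θ ^ k = ψ ^ k / φ ^ k := by
  rw [eq_div_iff (zpow_ne_zero _ φ_ne), ← mul_zpow, θφ]

lemma θ_pow_bd (m : ℕ) (hm : 1 ≤ m) : -0.382 ≤ θ ^ m ∧ θ ^ m ≤ 0.146 := by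
  have h1 := θ_lo
  have h2 := θ_hi
  induction m, hm using Nat.le_induction with
  | base => rw [pow_one]; constructor <;> linarith
  | succ m hm ih =>
    rw [pow_succ]
    obtain ⟨i1, i2⟩ := ih
    constructor <;> nlinarith

lemma θ_zpow_bd {m : ℤ} (hm : 1 ≤ m) : -0.382 ≤ θ ^ m ∧ θ ^ m ≤ 0.146 := by
  lift m to ℕ using (by omega)
  rw [zpow_natCast]
  exact θ_pow_bd m (by omega)

lemma θ_zpow_bd0 {m : ℤ} (hm : 0 ≤ m) : -0.382 ≤ θ ^ m ∧ θ ^ m ≤ 1 := by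
  rcases hm.lt_or_eq with h | h
  · have := θ_zpow_bd (m := m) (by omega); constructor <;> linarith
  · rw [← h, zpow_zero]; norm_num

lemma θ_inv : θ⁻¹ = -(φ + 1) := by
  rw [inv_eq_iff_eq_inv, eq_comm]
  apply inv_eq_of_mul_eq_one_right
  unfold θ; linear_combination - φ_sq

lemma θ_neg_pow (n : ℕ) (hn : 1 ≤ n) : (θ⁻¹) ^ n ≤ -2.6 ∨ 6.8 ≤ (θ⁻¹) ^ n := by
  have h1 : θ⁻¹ < -2.618 := by rw [θ_inv]; have := φ_lo; linarith
  induction n, hn using Nat.le_induction with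
  | base => left; rw [pow_one]; linarith
  | succ n hn ih =>
    rw [pow_succ]
    rcases ih with h | h
    · right; nlinarith
    · left; nlinarith

lemma θ_zpow_alt (k : ℤ) : θ ^ k ≤ 1 ∨ 6.8 ≤ θ ^ k := by
  by_cases hk : 0 ≤ k
  · left; exact (θ_zpow_bd0 hk).2
  · push Not at hk
    obtain ⟨n, hn⟩ : ∃ n : ℕ, k = -n := ⟨(-k).toNat, by omega⟩
    have e : θ ^ k = (θ⁻¹) ^ n := by rw [hn, zpow_neg, zpow_natCast, inv_pow]
    rw [e]
    rcases θ_neg_pow n (by omega) with h | h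
    · left; linarith
    · right; exact h

lemma θ_abs_zpow {k : ℤ} {I : ℕ} (h : k ≤ I + 1) : |θ| ^ (I + 1) ≤ |θ ^ k| := by
  rw [abs_zpow, ← zpow_natCast]
  have h1 : 0 < |θ| := abs_pos.mpr θ_ne
  have h2 : |θ| ≤ 1 := by rw [abs_le]; have := θ_lo; have := θ_hi; constructor <;> linarith
  exact zpow_le_zpow_right_of_le_one₀ h1 h2 (by push_cast; exact h)

/-- the numerators are not small -/
lemma U_minus {k m : ℤ} {I : ℕ} (hkm : 1 ≤ k + m) (hk : k ≤ I + 1) (hm : m ≤ I + 1) :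
    2900 * |θ| ^ (I + 1) ≤ |ω ^ 2 * θ ^ k + ω' ^ 2 * θ ^ m - 2 * (ω * ω') * (θ ^ k * θ ^ m)| := by
  have hω := ω_lo
  have hω2 := ω_hi
  have hω' := ω'_lo
  have hω'2 := ω'_hi
  have hs := θ_abs_zpow hk
  have ht := θ_abs_zpow hm
  have hww := ω_mul
  have w1 : 10326 < ω ^ 2 := by nlinarith
  have w2 : ω ^ 2 < 10326.3 := by nlinarith
  have w3 : 9876 < ω' ^ 2 := by nlinarith
  have w4 : ω' ^ 2 < 9877 := by nlinarith
  have hp : 0 ≤ |θ| ^ (I + 1) := by positivity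
  rcases le_total k m with h | h
  · have hm1 : 1 ≤ m := by omega
    obtain ⟨d, hd⟩ : ∃ d, m = k + d := ⟨m - k, by ring⟩
    have hd0 : 0 ≤ d := by omega
    have b1 := θ_zpow_bd hm1
    have b2 := θ_zpow_bd0 hd0
    have e : ω ^ 2 * θ ^ k + ω' ^ 2 * θ ^ m - 2 * (ω * ω') * (θ ^ k * θ ^ m) =
        θ ^ k * (ω ^ 2 + ω' ^ 2 * θ ^ d - 2 * (ω * ω') * θ ^ m) := by
      conv_lhs => rw [show ω' ^ 2 * θ ^ m = ω' ^ 2 * (θ ^ k * θ ^ d) by rw [hd, zpow_add₀ θ_ne]]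
      ring
    rw [e, abs_mul, hww]
    have hbr : 2900 ≤ ω ^ 2 + ω' ^ 2 * θ ^ d - 2 * 10099 * θ ^ m := by nlinarith
    have : 2900 ≤ |ω ^ 2 + ω' ^ 2 * θ ^ d - 2 * 10099 * θ ^ m| := hbr.trans (le_abs_self _)
    nlinarith [abs_nonneg (θ ^ k)]
  · have hk1 : 1 ≤ k := by omega
    obtain ⟨d, hd⟩ : ∃ d, k = m + d := ⟨k - m, by ring⟩
    have hd0 : 0 ≤ d := by omega
    have b1 := θ_zpow_bd hk1
    have b2 := θ_zpow_bd0 hd0
    have e : ω ^ 2 * θ ^ k + ω' ^ 2 * θ ^ m - 2 * (ω * ω') * (θ ^ k * θ ^ m) =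
        θ ^ m * (ω' ^ 2 + ω ^ 2 * θ ^ d - 2 * (ω * ω') * θ ^ k) := by
      conv_lhs => rw [show ω ^ 2 * θ ^ k = ω ^ 2 * (θ ^ m * θ ^ d) by rw [hd, zpow_add₀ θ_ne]]
      ring
    rw [e, abs_mul, hww]
    have hbr : 2900 ≤ ω' ^ 2 + ω ^ 2 * θ ^ d - 2 * 10099 * θ ^ k := by nlinarith
    have : 2900 ≤ |ω' ^ 2 + ω ^ 2 * θ ^ d - 2 * 10099 * θ ^ k| := hbr.trans (le_abs_self _)
    nlinarith [abs_nonneg (θ ^ m)]

lemma U_plus {k m : ℤ} (hkm : 1 ≤ k + m) :
    8000 ≤ |ω ^ 2 * θ ^ k + ω' ^ 2 * θ ^ m - 2 * (ω * ω')| := by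
  have hω := ω_lo
  have hω2 := ω_hi
  have hω' := ω'_lo
  have hω'2 := ω'_hi
  have hww := ω_mul
  have w1 : 10326 < ω ^ 2 := by nlinarith
  have w2 : ω ^ 2 < 10326.3 := by nlinarith
  have w3 : 9876 < ω' ^ 2 := by nlinarith
  have w4 : ω' ^ 2 < 9877 := by nlinarith
  rw [hww]
  rcases le_total k m with h | h
  · have b1 := θ_zpow_bd (m := m) (by omega)
    rcases θ_zpow_alt k with h1 | h1
    · rw [le_abs]; right; nlinarith
    · rw [le_abs]; left; nlinarith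
  · have b1 := θ_zpow_bd (m := k) (by omega)
    rcases θ_zpow_alt m with h1 | h1
    · rw [le_abs]; right; nlinarith
    · rw [le_abs]; left; nlinarith

lemma coefC_R : coefC U1 U2 = 10099 / r := by
  have : det U1 U2 = r := by simp only [det, U1, U2]; linarith [ω_sub]
  rw [coefC, this]; simp only [U1, U2]; rw [← ω_mul]; ring
lemma coefB_R : coefB U1 U2 = 201 / r := by
  have : det U1 U2 = r := by simp only [det, U1, U2]; linarith [ω_sub]
  rw [coefB, this]; simp only [U1, U2]; rw [← ω_add]; ring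
lemma coefA_R : coefA U1 U2 = 1 / r := by
  have : det U1 U2 = r := by simp only [det, U1, U2]; linarith [ω_sub]
  rw [coefA, this]; simp [U1, U2]

/-- the `y²`-coefficient for two units, larger exponent first -/
lemma coefC_units {w1 w2 : ℤ × ℤ} {k m : ℤ} {I : ℕ} (h1 : IsU w1 k) (h2 : IsU w2 (-m))
    (hkm : 1 ≤ k + m) (hk : k ≤ I + 1) (hm : m ≤ I + 1) :
    350 * |θ| ^ I ≤ |coefC U1 U2 - coefC (toR w1) (toR w2)| ∧
      350 * |θ| ^ I ≤ |coefC U1 U2 + coefC (toR w1) (toR w2)| := by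
  have hr0 := r_pos
  have hr := r_hi
  set s := θ ^ k with hs
  set t := θ ^ m with ht
  have hst : s * t = θ ^ (k + m) := by rw [hs, ht, zpow_add₀ θ_ne]
  have hb := θ_zpow_bd hkm
  rw [← hst] at hb
  have hne : s * t - 1 ≠ 0 := by have := hb.2; intro h; linarith
  have hφk : φ ^ k ≠ 0 := zpow_ne_zero _ φ_ne
  have hψm : ψ ^ (-m) ≠ 0 := zpow_ne_zero _ ψ_ne
  have e1 : ψ ^ k = s * φ ^ k := by rw [hs, θ_zpow]; field_simp
  have e2 : φ ^ (-m) = t * ψ ^ (-m) := by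
    rw [ht, θ_zpow, zpow_neg, zpow_neg]
    have := zpow_ne_zero m φ_ne
    have := zpow_ne_zero m ψ_ne
    field_simp
  have hC : coefC (toR w1) (toR w2) = (ω * s - ω') * (ω - ω' * t) / (r * (s * t - 1)) := by
    rw [coefC, fst_eq, fst_eq (toR w2), det_eq, h1.1, h1.2, h2.1, h2.2, e1, e2]
    field_simp
  have hm1 : coefC U1 U2 - coefC (toR w1) (toR w2) =
      -((ω ^ 2 * s + ω' ^ 2 * t - 2 * (ω * ω') * (s * t)) / (r * (s * t - 1))) := by
    rw [coefC_R, hC, ← ω_mul]; field_simp; ring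
  have hp1 : coefC U1 U2 + coefC (toR w1) (toR w2) =
      (ω ^ 2 * s + ω' ^ 2 * t - 2 * (ω * ω')) / (r * (s * t - 1)) := by
    rw [coefC_R, hC, ← ω_mul]; field_simp; ring
  have hden : |r * (s * t - 1)| ≤ 3.1 := by
    rw [abs_mul, abs_of_pos hr0]
    have : |s * t - 1| ≤ 1.382 := by rw [abs_le]; constructor <;> linarith
    nlinarith [abs_nonneg (s * t - 1)]
  have hden0 : 0 < |r * (s * t - 1)| := abs_pos.mpr (mul_ne_zero hr0.ne' hne)
  have hθI : |θ| ^ (I + 1) = |θ| ^ I * |θ| := pow_succ _ _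
  have hθ1 : 0.38195 ≤ |θ| := by rw [abs_of_neg (by have := θ_hi; linarith)]; have := θ_hi; linarith
  have hθI0 : 0 ≤ |θ| ^ I := by positivity
  have hθI1 : |θ| ^ I ≤ 1 := by
    apply pow_le_one₀ (abs_nonneg _)
    rw [abs_le]; have := θ_lo; have := θ_hi; constructor <;> linarith
  constructor
  · rw [hm1, abs_neg, abs_div, le_div_iff₀ hden0]
    have := U_minus hkm hk hm
    rw [hθI] at this
    refine le_trans ?_ this
    have h3 : 350 * |θ| ^ I * |r * (s * t - 1)| ≤ 350 * |θ| ^ I * 3.1 :=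
      mul_le_mul_of_nonneg_left hden (by positivity)
    nlinarith
  · rw [hp1, abs_div, le_div_iff₀ hden0]
    have := U_plus (k := k) (m := m) hkm
    refine le_trans ?_ this
    have h3 : 350 * |θ| ^ I * |r * (s * t - 1)| ≤ 350 * |θ| ^ I * 3.1 :=
      mul_le_mul_of_nonneg_left hden (by positivity)
    nlinarith

lemma det_swap (p q : ℝ × ℝ) : det q p = - det p q := by unfold det; ring
lemma coefC_swap (p q : ℝ × ℝ) : coefC q p = - coefC p q := by
  rw [coefC, coefC, det_swap p q, div_neg, mul_comm]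

lemma coefC_sign {σ τ : ℤ} (hσ : σ = 1 ∨ σ = -1) (hτ : τ = 1 ∨ τ = -1) (v w : ℤ × ℤ) :
    coefC (toR (σ * v.1, σ * v.2)) (toR (τ * w.1, τ * w.2)) = coefC (toR v) (toR w) := by
  rcases hσ with rfl | rfl <;> rcases hτ with rfl | rfl <;> simp [coefC, det, toR]
  · rw [← neg_div_neg_eq]; congr 1 <;> ring
  · rw [← neg_div_neg_eq]; congr 1 <;> ring

lemma rho_ge_of_coefC {p q p' q' : ℝ × ℝ} {c : ℝ} (h1 : c ≤ |coefC p q - coefC p' q'|)
    (h2 : c ≤ |coefC p q + coefC p' q'|) : c ≤ rho p q p' q' := by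
  unfold rho
  apply le_min
  · exact h2.trans ((le_max_right _ _).trans (le_max_right _ _))
  · exact h1.trans ((le_max_right _ _).trans (le_max_right _ _))

/-! ### The special approximations and the conclusion -/

lemma φ_pow_big {I : ℕ} (hI : 10 ≤ I) : 100 ≤ φ ^ I := by
  have h1 : (1.618 : ℝ) ^ 10 ≤ φ ^ 10 := pow_le_pow_left₀ (by norm_num) φ_lo.le 10
  have h2 : φ ^ 10 ≤ φ ^ I := pow_le_pow_right₀ (by have := φ_lo; linarith) hI
  have h3 : (100 : ℝ) ≤ 1.618 ^ 10 := by norm_num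
  linarith

lemma ψ_zpow_abs (k : ℤ) : |ψ ^ k| = (φ ^ k)⁻¹ := by
  rw [ψ_zpow, abs_mul, abs_zpow]
  have := zpow_pos φ_pos k
  rw [abs_of_pos (inv_pos.mpr this)]; simp

/-- units with small coordinates have small exponents -/
lemma exp_bd {w : ℤ × ℤ} {k : ℤ} {I : ℕ} (hI : 10 ≤ I) (h : IsU w k)
    (hx : |(w.1 : ℝ)| ≤ 112 * φ ^ I) : k ≤ I + 1 ∧ -k ≤ I + 1 := by
  have hr0 := r_pos
  have hr := r_hi
  have hω := ω_lo
  have hω2 := ω_hi
  have hω' := ω'_lo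
  have hω'2 := ω'_hi
  have hφ1 : 1 ≤ φ := by have := φ_lo; linarith
  have hbig := φ_pow_big hI
  have hP : 0 < φ ^ k := zpow_pos φ_pos k
  have hx1 : (w.1 : ℝ) * r = ω * ψ ^ k - ω' * φ ^ k := by
    have := fst_eq (toR w)
    rw [h.1, h.2, eq_div_iff hr0.ne'] at this
    exact this
  have hab : |(w.1 : ℝ) * r| ≤ 112 * φ ^ I * r := by
    rw [abs_mul, abs_of_pos hr0]; exact mul_le_mul_of_nonneg_right hx hr0.le
  have hψ := ψ_zpow_abs k
  have hPinv : 0 < (φ ^ k)⁻¹ := inv_pos.mpr hP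
  have hT : φ ^ ((I : ℤ) + 2) = φ ^ I * φ ^ 2 := by
    rw [zpow_add₀ φ_ne]; norm_cast
  have hφ2 := φ_sq
  have hφlo := φ_lo
  have hφpos := φ_pos
  rw [hx1] at hab
  constructor
  · by_contra hlt
    push Not at hlt
    have h1 : φ ^ ((I : ℤ) + 2) ≤ φ ^ k := zpow_le_zpow_right₀ hφ1 (by omega)
    rw [hT, hφ2] at h1
    have h2 : 261 ≤ φ ^ k := by nlinarith
    have h3 : (φ ^ k)⁻¹ ≤ 1 := inv_le_one_of_one_le₀ (by linarith)
    have h4 : ω' * φ ^ k - ω * (φ ^ k)⁻¹ ≤ |ω * ψ ^ k - ω' * φ ^ k| := by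
      have h5 : |ω * ψ ^ k| = ω * (φ ^ k)⁻¹ := by rw [abs_mul, hψ, abs_of_pos (by linarith)]
      have h6 : |ω' * φ ^ k| = ω' * φ ^ k := abs_of_pos (mul_pos (by linarith) hP)
      have h7 := abs_sub_abs_le_abs_sub (ω' * φ ^ k) (ω * ψ ^ k)
      rw [h5, h6, abs_sub_comm] at h7
      exact h7
    have h8 : ω * (φ ^ k)⁻¹ ≤ 102 := by nlinarith
    have h9 : 99.38 * φ ^ k ≤ ω' * φ ^ k := mul_le_mul_of_nonneg_right (by linarith) hP.le
    have h10 : 99.38 * (φ ^ I * (φ + 1)) ≤ 99.38 * φ ^ k := mul_le_mul_of_nonneg_left h1 (by norm_num)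
    have h11 : φ ^ I * 2.618 ≤ φ ^ I * (φ + 1) := mul_le_mul_of_nonneg_left (by linarith) (by positivity)
    have h12 : 112 * φ ^ I * r ≤ 112 * φ ^ I * 2.2361 := mul_le_mul_of_nonneg_left hr.le (by positivity)
    nlinarith
  · by_contra hlt
    push Not at hlt
    have h1 : φ ^ ((I : ℤ) + 2) ≤ φ ^ (-k) := zpow_le_zpow_right₀ hφ1 (by omega)
    rw [hT, hφ2, zpow_neg] at h1
    have h2 : 261 ≤ (φ ^ k)⁻¹ := by nlinarith
    have h3 : φ ^ k ≤ 1 := by
      rw [← inv_inv (φ ^ k)]; exact inv_le_one_of_one_le₀ (by linarith)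
    have h4 : ω * (φ ^ k)⁻¹ - ω' * φ ^ k ≤ |ω * ψ ^ k - ω' * φ ^ k| := by
      have h5 : |ω * ψ ^ k| = ω * (φ ^ k)⁻¹ := by rw [abs_mul, hψ, abs_of_pos (by linarith)]
      have h6 : |ω' * φ ^ k| = ω' * φ ^ k := abs_of_pos (mul_pos (by linarith) hP)
      have h7 := abs_sub_abs_le_abs_sub (ω * ψ ^ k) (ω' * φ ^ k)
      rw [h5, h6] at h7
      exact h7
    have h8 : ω' * φ ^ k ≤ 100 := by nlinarith
    have h9 : 101 * (φ ^ k)⁻¹ ≤ ω * (φ ^ k)⁻¹ := mul_le_mul_of_nonneg_right (by linarith) hPinv.le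
    have h10 : 101 * (φ ^ I * (φ + 1)) ≤ 101 * (φ ^ k)⁻¹ := mul_le_mul_of_nonneg_left h1 (by norm_num)
    have h11 : φ ^ I * 2.618 ≤ φ ^ I * (φ + 1) := mul_le_mul_of_nonneg_left (by linarith) (by positivity)
    have h12 : 112 * φ ^ I * r ≤ 112 * φ ^ I * 2.2361 := mul_le_mul_of_nonneg_left hr.le (by positivity)
    nlinarith

/-- lower bound for pairs on the sails -/
lemma rho_units {v w : ℤ × ℤ} {I : ℕ} (hI : 10 ≤ I) (hv : IsCoprime v.1 v.2)
    (hw : IsCoprime w.1 w.2) (hd : det (toR v) (toR w) ≠ 0) (hvs : toR v ∈ gcf U1 U2)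
    (hws : toR w ∈ gcf U1 U2) (hvx : |(v.1 : ℝ)| ≤ 112 * φ ^ I) (hwx : |(w.1 : ℝ)| ≤ 112 * φ ^ I) :
    350 * |θ| ^ I ≤ rho U1 U2 (toR v) (toR w) := by
  obtain ⟨k, w1, σ, hσ, hu1, rfl⟩ := unit_of_mem hv hvs
  obtain ⟨l, w2, τ, hτ, hu2, rfl⟩ := unit_of_mem hw hws
  have hx : ∀ (σ : ℤ) (x : ℤ), (σ = 1 ∨ σ = -1) → |(((σ * x : ℤ)) : ℝ)| = |(x : ℝ)| := by
    intro σ x hσ
    rcases hσ with rfl | rfl <;> simp
  rw [show ((σ * w1.1, σ * w1.2) : ℤ × ℤ).1 = σ * w1.1 from rfl, hx σ _ hσ] at hvx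
  rw [show ((τ * w2.1, τ * w2.2) : ℤ × ℤ).1 = τ * w2.1 from rfl, hx τ _ hτ] at hwx
  have b1 := exp_bd hI hu1 hvx
  have b2 := exp_bd hI hu2 hwx
  have hkl : k ≠ l := by
    rintro rfl
    have : toR w1 = toR w2 := ext_μ (by rw [hu1.1, hu2.1]) (by rw [hu1.2, hu2.2])
    apply hd
    have e1 : w1 = w2 := by
      have h1 := congrArg Prod.fst this
      have h2 := congrArg Prod.snd this
      simp only [toR] at h1 h2
      exact Prod.ext (by exact_mod_cast h1) (by exact_mod_cast h2)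
    rw [e1]; simp [det, toR]; ring
  rcases lt_or_gt_of_ne hkl with h | h
  · -- `l > k`
    have := coefC_units (w1 := w2) (w2 := w1) (k := l) (m := -k) (I := I) hu2
      (by rw [neg_neg]; exact hu1) (by omega) b2.1 b1.2
    rw [coefC_swap (toR w1) (toR w2)] at this
    apply rho_ge_of_coefC
    · rw [coefC_sign hσ hτ]; rw [← sub_eq_add_neg] at this; exact this.2
    · rw [coefC_sign hσ hτ]; rw [sub_neg_eq_add] at this; exact this.1
  · have := coefC_units (w1 := w1) (w2 := w2) (k := k) (m := -l) (I := I) hu1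
      (by rw [neg_neg]; exact hu2) (by omega) b1.1 b2.2
    apply rho_ge_of_coefC
    · rw [coefC_sign hσ hτ]; exact this.1
    · rw [coefC_sign hσ hτ]; exact this.2

lemma norm_form (v : ℤ × ℤ) :
    μ (toR v) * μ' (toR v) = ((v.1 ^ 2 + 201 * v.1 * v.2 + 10099 * v.2 ^ 2 : ℤ) : ℝ) := by
  simp only [μ, μ', toR]; push_cast
  linear_combination (v.1 * v.2 : ℝ) * ω_add + (v.2 : ℝ) ^ 2 * ω_mul

lemma coprime_of_norm {v : ℤ × ℤ} {c : ℤ} (hc : c.natAbs = 1 ∨ c.natAbs = 5)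
    (h : v.1 ^ 2 + 201 * v.1 * v.2 + 10099 * v.2 ^ 2 = c) : IsCoprime v.1 v.2 := by
  rw [Int.isCoprime_iff_gcd_eq_one]
  set g := Int.gcd v.1 v.2 with hg
  obtain ⟨a, ha⟩ := Int.gcd_dvd_left v.1 v.2
  obtain ⟨b, hb⟩ := Int.gcd_dvd_right v.1 v.2
  rw [← hg] at ha hb
  have h1 : ((g : ℤ) * g) ∣ c := ⟨a ^ 2 + 201 * a * b + 10099 * b ^ 2, by rw [← h, ha, hb]; ring⟩
  have h2 : g * g ∣ c.natAbs := by
    have := Int.natAbs_dvd_natAbs.mpr h1
    rwa [Int.natAbs_mul, Int.natAbs_natCast] at this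
  have h3 : g * g ≤ 5 := by
    rcases hc with hc | hc <;> rw [hc] at h2 <;> exact (Nat.le_of_dvd (by norm_num) h2).trans (by norm_num)
  have h4 : g ≤ 2 := by nlinarith
  interval_cases g
  · rcases hc with hc | hc <;> rw [hc] at h2 <;> norm_num at h2
  · rfl
  · rcases hc with hc | hc <;> rw [hc] at h2 <;> norm_num at h2

lemma θI_small {I : ℕ} (hI : 10 ≤ I) : |θ| ^ I ≤ 1 / 10000 := by
  have h0 : |θ| ≤ 0.382 := by rw [abs_le]; have := θ_lo; have := θ_hi; constructor <;> linarith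
  have h1 : |θ| ^ I ≤ |θ| ^ 10 := pow_le_pow_of_le_one (abs_nonneg _) (by linarith) hI
  have h2 : |θ| ^ 10 ≤ 0.382 ^ 10 := pow_le_pow_left₀ (abs_nonneg _) h0 10
  have h3 : (0.382 : ℝ) ^ 10 ≤ 1 / 10000 := by norm_num
  linarith

lemma mulb {P c r : ℝ} (hP : 0 < P) (hc : c ≤ 102) (hr : 1 ≤ r) : P * c ≤ 102 * P * r := by
  have h1 : P * c ≤ P * 102 := mul_le_mul_of_nonneg_left hc hP.le
  have h2 : P * 102 * 1 ≤ P * 102 * r := mul_le_mul_of_nonneg_left hr (by positivity)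
  linarith

lemma mulb' {P c : ℝ} (hP : 0 < P) (hc : c ≤ 102) : P * c ≤ 102 * P := by
  have h1 : P * c ≤ P * 102 := mul_le_mul_of_nonneg_left hc hP.le
  linarith

lemma small_comb {a b s : ℝ} (ha : 101 < a) (ha' : a < 101.62) (hb : 99 < b) (hb' : b < 99.4)
    (h1 : -(1 / 10000) ≤ s) (h2 : s ≤ 1 / 10000) :
    |a * s - b| ≤ 102 ∧ |a + b * s| ≤ 102 ∧ 1 ≤ |a + b * s| := by
  have e1 : -(1 / 10000) * 101.62 ≤ a * s := by nlinarith
  have e2 : a * s ≤ 1 / 10000 * 101.62 := by nlinarith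
  have e3 : -(1 / 10000) * 99.4 ≤ b * s := by nlinarith
  have e4 : b * s ≤ 1 / 10000 * 99.4 := by nlinarith
  refine ⟨?_, ?_, ?_⟩
  · rw [abs_le]; constructor <;> linarith
  · rw [abs_le]; constructor <;> linarith
  · rw [le_abs]; left; linarith

/-- the special approximations -/
lemma special {I : ℕ} (hI : 10 ≤ I) : ∃ v w : ℤ × ℤ, IsCoprime v.1 v.2 ∧ IsCoprime w.1 w.2 ∧
    det (toR v) (toR w) ≠ 0 ∧ ((max (nrm v) (nrm w) : ℤ) : ℝ) ≤ 102 * φ ^ I ∧
    φ ^ I ≤ ((max (nrm v) (nrm w) : ℤ) : ℝ) ∧ rho U1 U2 (toR v) (toR w) ≤ 202 * |θ| ^ I := by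
  obtain ⟨v, hv⟩ := exists_U (I : ℤ)
  obtain ⟨u, hu⟩ := exists_U (-(I : ℤ))
  set w : ℤ × ℤ := (-201 * u.1 - 20198 * u.2, 2 * u.1 + 201 * u.2) with hw
  have hr0 := r_pos
  have hr := r_hi
  have hr' := r_lo
  have hω := ω_lo
  have hω2 := ω_hi
  have hω' := ω'_lo
  have hω'2 := ω'_hi
  have hφI : 0 < φ ^ I := pow_pos φ_pos I
  have hψI : ψ ^ I ≠ 0 := pow_ne_zero _ ψ_ne
  have hbig := φ_pow_big hI
  set s := θ ^ I with hs
  have hsabs : |s| = |θ| ^ I := abs_pow _ _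
  have hsm : |s| ≤ 1 / 10000 := by rw [hsabs]; exact θI_small hI
  have hs' := abs_le.mp hsm
  have hψs : ψ ^ I = s * φ ^ I := by rw [hs, ← mul_pow, θφ]
  have hs0 : s ≠ 0 := pow_ne_zero _ θ_ne
  set β : ℝ := (ψ ^ I)⁻¹ with hβ
  have hβ0 : β ≠ 0 := inv_ne_zero hψI
  have hφβ : (φ ^ I)⁻¹ = s * β := by rw [hβ, hψs]; field_simp
  have hβabs : |β| = φ ^ I := by
    rw [hβ, abs_inv]
    have := ψ_zpow_abs (I : ℤ)
    rw [zpow_natCast, zpow_natCast] at this
    rw [this, inv_inv]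
  have hr2 := r_sq
  have a1 : μ (toR v) = φ ^ I := by rw [hv.1, zpow_natCast]
  have a2 : μ' (toR v) = s * φ ^ I := by rw [hv.2, zpow_natCast, hψs]
  have hu1 : μ (toR u) = s * β := by rw [hu.1, zpow_neg, zpow_natCast, hφβ]
  have hu2 : μ' (toR u) = β := by rw [hu.2, zpow_neg, zpow_natCast]
  have b1 : μ (toR w) = r * (s * β) := by
    have : μ (toR w) = r * μ (toR u) := by
      simp only [μ, toR, hw]; push_cast; unfold ω φ
      linear_combination - (u.2 : ℝ) / 2 * hr2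
    rw [this, hu1]
  have b2 : μ' (toR w) = -(r * β) := by
    have : μ' (toR w) = -r * μ' (toR u) := by
      simp only [μ', toR, hw]; push_cast; unfold ω' ψ
      linear_combination - (u.2 : ℝ) / 2 * hr2
    rw [this, hu2]; ring
  have x1 : (toR v).1 = φ ^ I * (ω * s - ω') / r := by rw [fst_eq, a1, a2]; ring
  have y1 : (toR v).2 = φ ^ I * (1 - s) / r := by rw [snd_eq, a1, a2]; ring
  have x2 : (toR w).1 = -(β * (ω + ω' * s)) := by rw [fst_eq, b1, b2]; field_simp; ring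
  have y2 : (toR w).2 = β * (1 + s) := by rw [snd_eq, b1, b2]; field_simp; ring
  have hdet : det (toR v) (toR w) = φ ^ I * β * (1 + s ^ 2) := by
    rw [det_eq, a1, a2, b1, b2]; field_simp; ring
  have h1s : 0 < 1 + s ^ 2 := by positivity
  have hdet0 : det (toR v) (toR w) ≠ 0 := by
    rw [hdet]; exact mul_ne_zero (mul_ne_zero hφI.ne' hβ0) h1s.ne'
  have hcv : IsCoprime v.1 v.2 := by
    have h1 := norm_form v
    rw [hv.1, hv.2, ← mul_zpow, φψ] at h1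
    have h2 : (((-1 : ℤ) ^ I : ℤ) : ℝ) = ((v.1 ^ 2 + 201 * v.1 * v.2 + 10099 * v.2 ^ 2 : ℤ) : ℝ) := by
      rw [← h1, zpow_natCast]; push_cast; rfl
    refine coprime_of_norm (c := (-1) ^ I) (Or.inl ?_) (by exact_mod_cast h2.symm)
    rw [Int.natAbs_pow]; simp
  have hcw : IsCoprime w.1 w.2 := by
    have h1 := norm_form w
    have h3 : μ (toR u) * μ' (toR u) = (-1) ^ I := by
      rw [hu.1, hu.2, ← mul_zpow, φψ, zpow_neg, zpow_natCast, ← inv_pow]; norm_num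
    rw [hu1, hu2] at h3
    have h4 : μ (toR w) * μ' (toR w) = -5 * (-1) ^ I := by
      rw [b1, b2, ← h3]; linear_combination - (s * β * β) * hr2
    rw [h4] at h1
    have h2 : (((-5 : ℤ) * (-1 : ℤ) ^ I : ℤ) : ℝ) = ((w.1 ^ 2 + 201 * w.1 * w.2 + 10099 * w.2 ^ 2 : ℤ) : ℝ) := by
      rw [← h1]; push_cast; rfl
    refine coprime_of_norm (c := (-5) * (-1) ^ I) (Or.inr ?_) (by exact_mod_cast h2.symm)
    rw [Int.natAbs_mul, Int.natAbs_pow]; simp
  -- bounds on coordinates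
  have hsc := small_comb (a := ω) (b := ω') (s := s) (by linarith) (by linarith) (by linarith)
    (by linarith) hs'.1 hs'.2
  have c1 : |(v.1 : ℝ)| ≤ 102 * φ ^ I := by
    have : (v.1 : ℝ) = φ ^ I * (ω * s - ω') / r := x1
    rw [this, abs_div, abs_mul, abs_of_pos hφI, abs_of_pos hr0, div_le_iff₀ hr0]
    exact mulb hφI hsc.1 (by linarith)
  have c2 : |(v.2 : ℝ)| ≤ 102 * φ ^ I := by
    have : (v.2 : ℝ) = φ ^ I * (1 - s) / r := y1
    rw [this, abs_div, abs_mul, abs_of_pos hφI, abs_of_pos hr0, div_le_iff₀ hr0]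
    have : |1 - s| ≤ 102 := by rw [abs_le]; constructor <;> linarith
    exact mulb hφI this (by linarith)
  have c3 : |(w.1 : ℝ)| ≤ 102 * φ ^ I := by
    have : (w.1 : ℝ) = -(β * (ω + ω' * s)) := x2
    rw [this, abs_neg, abs_mul, hβabs]
    exact mulb' hφI hsc.2.1
  have c4 : |(w.2 : ℝ)| ≤ 102 * φ ^ I := by
    have : (w.2 : ℝ) = β * (1 + s) := y2
    rw [this, abs_mul, hβabs]
    have : |1 + s| ≤ 102 := by rw [abs_le]; constructor <;> linarith
    exact mulb' hφI this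
  have c5 : φ ^ I ≤ |(w.1 : ℝ)| := by
    have : (w.1 : ℝ) = -(β * (ω + ω' * s)) := x2
    rw [this, abs_neg, abs_mul, hβabs]
    exact le_mul_of_one_le_right hφI.le hsc.2.2
  refine ⟨v, w, hcv, hcw, hdet0, ?_, ?_, ?_⟩
  · unfold nrm
    push_cast
    exact max_le (max_le c1 c2) (max_le c3 c4)
  · unfold nrm
    push_cast
    exact c5.trans ((le_max_left _ _).trans (le_max_right _ _))
  · have hm : ω ^ 2 - ω' ^ 2 = 201 * r := by
      have := ω_sub; have := ω_add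
      have e : ω ^ 2 - ω' ^ 2 = (ω + ω') * (ω - ω') := by ring
      rw [e, ω_add, ω_sub]
    have eC : coefC U1 U2 - coefC (toR v) (toR w) = s * (201 * r + 20198 * s) / (r * (1 + s ^ 2)) := by
      rw [coefC_R, coefC, hdet, x1, x2]
      have hφI' := hφI.ne'
      have h1s' := h1s.ne'
      have hr0' := hr0.ne'
      field_simp
      have e2 : (ω * s - ω') * (ω + ω' * s) = s * (ω ^ 2 - ω' ^ 2) + (s ^ 2 - 1) * (ω * ω') := by ring
      have hww := ω_mul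
      linear_combination e2 + s * hm + (s ^ 2 - 1) * hww
    have eB : coefB U1 U2 - coefB (toR v) (toR w) = s * (402 * s + 2 * r) / (r * (1 + s ^ 2)) := by
      rw [coefB_R, coefB, hdet, x1, x2, y1, y2]
      have hφI' := hφI.ne'
      have h1s' := h1s.ne'
      have hr0' := hr0.ne'
      field_simp
      have h1 := ω_sub
      have h2 := ω_add
      have e2 : (ω * s - ω') * (1 + s) - (1 - s) * (ω + ω' * s) =
        (ω + ω') * s ^ 2 + 2 * (ω - ω') * s - (ω + ω') := by ring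
      rw [h1, h2] at e2
      linear_combination e2
    have eA : coefA U1 U2 - coefA (toR v) (toR w) = s * (2 * s) / (r * (1 + s ^ 2)) := by
      rw [coefA_R, coefA, hdet, y1, y2]
      have hφI' := hφI.ne'
      have h1s' := h1s.ne'
      have hr0' := hr0.ne'
      field_simp
      ring
    have hgen : ∀ c : ℝ, |c| ≤ 451.5 → |s * c / (r * (1 + s ^ 2))| ≤ 202 * |θ| ^ I := by
      intro c hc
      rw [← hsabs, abs_div, abs_mul, abs_of_pos (mul_pos hr0 h1s), div_le_iff₀ (mul_pos hr0 h1s)]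
      have h3 : |s| * |c| ≤ |s| * 451.5 := mul_le_mul_of_nonneg_left hc (abs_nonneg _)
      have h4 : 451.5 ≤ 202 * (r * (1 + s ^ 2)) := by
        have h5 : r * 1 ≤ r * (1 + s ^ 2) :=
          mul_le_mul_of_nonneg_left (by linarith [sq_nonneg s]) hr0.le
        linarith
      have h6 : |s| * 451.5 ≤ |s| * (202 * (r * (1 + s ^ 2))) :=
        mul_le_mul_of_nonneg_left h4 (abs_nonneg s)
      linarith
    refine (min_le_right _ _).trans ?_
    rw [eA, eB, eC]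
    apply max_le
    · exact hgen _ (by rw [abs_le]; constructor <;> linarith)
    · apply max_le
      · exact hgen _ (by rw [abs_le]; constructor <;> linarith)
      · exact hgen _ (by rw [abs_le]; constructor <;> linarith)

/-- best approximations exist as soon as some integer arrangement has size at most `N` -/
lemma exists_best (p q : ℝ × ℝ) (N : ℕ) {v0 w0 : ℤ × ℤ} (h0 : IsIntArr N v0 w0) :
    ∃ v w, IsBest p q N v w := by
  set A : Set ((ℤ × ℤ) × (ℤ × ℤ)) := {x | IsIntArr N x.1 x.2} with hA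
  have hfin : A.Finite := by
    apply Set.Finite.subset (Finset.finite_toSet
      (((Finset.Icc (-(N : ℤ)) N) ×ˢ (Finset.Icc (-(N : ℤ)) N)) ×ˢ
        ((Finset.Icc (-(N : ℤ)) N) ×ˢ (Finset.Icc (-(N : ℤ)) N))))
    rintro ⟨v, w⟩ ⟨-, -, -, h⟩
    unfold nrm at h
    simp only [max_le_iff, abs_le] at h
    simp only [Finset.coe_product, Finset.coe_Icc, Set.mem_prod, Set.mem_Icc]
    tauto
  obtain ⟨x, hx, hmin⟩ := Set.exists_min_image A (fun x => rho p q (toR x.1) (toR x.2)) hfin ⟨(v0, w0), h0⟩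
  exact ⟨x.1, x.2, hx, fun v' w' h => hmin (v', w') h⟩

lemma algebraic : IsAlgebraicArr U1 U2 := by
  refine ⟨!![-100, -10099; 1, 101], ?_, ?_, ⟨φ, ?_⟩, ⟨ψ, ?_⟩⟩
  · rw [Matrix.det_fin_two_of]; norm_num
  · rw [Matrix.charpoly_fin_two]
    have htr : ((!![-100, -10099; 1, 101] : Matrix (Fin 2) (Fin 2) ℤ).map (Int.cast : ℤ → ℚ)).trace = 1 := by
      simp [Matrix.trace_fin_two]; norm_num
    have hdt : ((!![-100, -10099; 1, 101] : Matrix (Fin 2) (Fin 2) ℤ).map (Int.cast : ℤ → ℚ)).det = -1 := by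
      simp [Matrix.det_fin_two]; norm_num
    rw [htr, hdt]
    have hdeg : (Polynomial.X ^ 2 - Polynomial.C (1 : ℚ) * Polynomial.X + Polynomial.C (-1 : ℚ)).natDegree = 2 := by
      compute_degree!
    rw [Polynomial.irreducible_iff_roots_eq_zero_of_degree_le_three (by rw [hdeg]) (by rw [hdeg]; norm_num)]
    rw [Multiset.eq_zero_iff_forall_notMem]
    intro x hx
    have hroot := (Polynomial.mem_roots'.mp hx).2
    simp [Polynomial.IsRoot] at hroot
    have h5 : (2 * (x : ℝ) - 1) ^ 2 = 5 := by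
      have : (x : ℝ) ^ 2 - x + -1 = 0 := by exact_mod_cast hroot
      linarith
    have hr := r_irr
    have h6 : (2 * (x : ℝ) - 1 - r) * (2 * (x : ℝ) - 1 + r) = 0 := by
      linear_combination h5 - r_sq
    rcases mul_eq_zero.mp h6 with h | h
    · apply hr; exact ⟨2 * x - 1, by push_cast; linarith⟩
    · apply hr; exact ⟨1 - 2 * x, by push_cast; linarith⟩
  · have h1 := φψ
    have h2 := φ_add
    ext i; fin_cases i
    · simp [Matrix.mulVec, dotProduct, Fin.sum_univ_two, U1, ω']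
      linear_combination h1 + 100 * h2
    · simp [Matrix.mulVec, dotProduct, Fin.sum_univ_two, U1, ω']
      linear_combination - h2
  · have h1 := φψ
    have h2 := φ_add
    ext i; fin_cases i
    · simp [Matrix.mulVec, dotProduct, Fin.sum_univ_two, U2, ω]
      linear_combination h1 + 100 * h2
    · simp [Matrix.mulVec, dotProduct, Fin.sum_univ_two, U2, ω]
      linear_combination - h2

/-- There is an algebraic arrangement `(p, q)` and a constant `c > 1` such that for arbitrarily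
large `N₁` and all `N` with `N₁ ≤ N ≤ c N₁`, every best approximation of size at most `N` has a
primitive vector off the geometric continued fraction of `(p, q)`. -/
theorem result : ∃ p q : ℝ × ℝ, det p q ≠ 0 ∧ IsAlgebraicArr p q ∧ ∃ c : ℝ, 1 < c ∧
    ∀ N₀ : ℕ, ∃ N₁ : ℕ, N₀ ≤ N₁ ∧ 1 ≤ N₁ ∧ ∀ N : ℕ, N₁ ≤ N → (N : ℝ) ≤ c * N₁ →
      (∃ v w, IsBest p q N v w) ∧
      ∀ v w, IsBest p q N v w → toR v ∉ gcf p q ∨ toR w ∉ gcf p q := by
  have hdR : det U1 U2 = r := by simp only [det, U1, U2]; linarith [ω_sub]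
  refine ⟨U1, U2, by rw [hdR]; exact r_pos.ne', algebraic, 1.09, by norm_num, fun N₀ => ?_⟩
  set I : ℕ := max 10 (2 * N₀) with hI
  have hI10 : 10 ≤ I := le_max_left _ _
  obtain ⟨v0, w0, hv0, hw0, hd0, hup, hlo, hρ⟩ := special hI10
  have hφI : (N₀ : ℝ) ≤ φ ^ I := by
    have h1 : 2 * N₀ ≤ I := le_max_right _ _
    have h2 : 1 + (I : ℝ) * (0.6 : ℝ) ≤ (1 + 0.6) ^ I := one_add_mul_le_pow (by norm_num) I
    have h3 : ((1 : ℝ) + 0.6) ^ I ≤ φ ^ I := pow_le_pow_left₀ (by norm_num) (by have := φ_lo; linarith) I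
    have h4 : (2 * N₀ : ℝ) ≤ I := by exact_mod_cast h1
    linarith
  have hnn : (0 : ℤ) ≤ max (nrm v0) (nrm w0) :=
    (abs_nonneg v0.1).trans ((le_max_left _ _).trans (le_max_left _ _))
  obtain ⟨N₁, hN₁⟩ : ∃ N : ℕ, (N : ℤ) = max (nrm v0) (nrm w0) := ⟨(max (nrm v0) (nrm w0)).toNat, by omega⟩
  rw [← hN₁] at hup hlo
  have hbig := φ_pow_big hI10
  push_cast at hup hlo
  refine ⟨N₁, ?_, ?_, fun N hNN hNc => ?_⟩
  · have : (N₀ : ℝ) ≤ N₁ := by linarith
    exact_mod_cast this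
  · have : (1 : ℝ) ≤ N₁ := by linarith
    exact_mod_cast this
  have h0 : IsIntArr N v0 w0 := ⟨hv0, hw0, hd0, by rw [← hN₁]; exact_mod_cast hNN⟩
  refine ⟨exists_best _ _ _ h0, fun v w hb => ?_⟩
  by_contra hcon
  push Not at hcon
  obtain ⟨hvs, hws⟩ := hcon
  obtain ⟨⟨hv, hw, hd, hsz⟩, hmin⟩ := hb
  have hcoord : ∀ x : ℤ, |x| ≤ N → |(x : ℝ)| ≤ 112 * φ ^ I := by
    intro x hx
    have : |(x : ℝ)| ≤ N := by exact_mod_cast hx
    linarith
  have h1 : |v.1| ≤ N := (le_max_left _ _).trans ((le_max_left _ _).trans hsz)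
  have h2 : |w.1| ≤ N := (le_max_left _ _).trans ((le_max_right _ _).trans hsz)
  have h3 := rho_units hI10 hv hw hd hvs hws (hcoord _ h1) (hcoord _ h2)
  have h4 := hmin v0 w0 h0
  have h5 : 0 < |θ| ^ I := pow_pos (abs_pos.mpr θ_ne) I
  linarith

end Pool.Agent.Results.MP_b5c594_nt.BestOffSails
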